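import Pool.Agent.Helper904_Yau.ALL
import Pool.Agent.Helper904_Yau.Final

/-!
# MP_c7f82c_an, Q1: the average doubling index of Laplace eigenfunctions over wavelength discs.

The proof is explained in `Pool/Agent/Helper904_Yau/PAPER.md`.
-/

set_option autoImplicit false

open MeasureTheory Set Bundle
open scoped ContDiff Manifold

open Pool.Agent.Helper904_QSG (IsEigenfunction)
open Pool.Agent.Helper904_Yau (doublingIndex AdmissibleCovering)

/-- On every closed connected smooth Riemannian surface `M`, for all constants `C, C₁, C₂ > 0`, there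
is a constant `A` such that for every `lam > 0`, every Laplace eigenfunction `φ` with eigenvalue `lam`
and every admissible covering by the discs `B(x j, C/√lam)`, `j < n`, the average of the doubling
indices of `φ` on these discs is at most `A`.
The surface is modelled on a real normed space `E` with a basis of two vectors, for instance
`EuclideanSpace ℝ (Fin 2)` with its standard basis. -/
theorem Pool.Agent.Results.MP_c7f82c_an.AverageDoubling.result
    (E : Type) [NormedAddCommGroup E] [NormedSpace ℝ E] (b : Module.Basis (Fin 2) ℝ E)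
    (M : Type) [MetricSpace M] [ChartedSpace E M] [IsManifold 𝓘(ℝ, E) ∞ M]
    [RiemannianBundle (fun x : M => TangentSpace 𝓘(ℝ, E) x)]
    [IsContMDiffRiemannianBundle 𝓘(ℝ, E) ∞ E (fun x : M => TangentSpace 𝓘(ℝ, E) x)]
    [IsRiemannianManifold 𝓘(ℝ, E) M] [CompactSpace M] [ConnectedSpace M]
    (C C₁ C₂ : ℝ) (hC : 0 < C) (hC₁ : 0 < C₁) (hC₂ : 0 < C₂) :
    ∃ A : ℝ, ∀ (lam : ℝ) (φ : M → ℝ), 0 < lam → IsEigenfunction b lam φ →
      ∀ (n : ℕ) (x : Fin n → M), AdmissibleCovering C C₁ C₂ lam φ n x →
        (∑ j, doublingIndex φ (x j) (C / √lam)) / n ≤ A := by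
  obtain ⟨A, hA⟩ := Pool.Agent.Helper904_Yau.all_YFIN E b M C C₁ C₂ hC hC₁ hC₂
  exact ⟨A, fun lam φ hlam hφ n x h =>
    hA lam φ hlam hφ n x h.zero h.cover h.card_lower h.card_upper h.overlap⟩
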